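import Pool.Agent.Helper37.Arb.Goals

/-!
PROJECT ARB, packet CB.
-/

set_option autoImplicit false

namespace Pool.Agent.Helper53.Arb

open Pool.Agent.Helper37.Arb

private theorem exists_bound (h : ℤ → ℝ) (hh : (Function.support h).Finite) :
    ∃ B : ℤ, 0 ≤ B ∧ ∀ i, h i ≠ 0 → -B ≤ i ∧ i ≤ B := by
  obtain ⟨B, hB⟩ := (hh.image (fun i => |i|)).bddAbove
  refine ⟨max B 0, le_max_right _ _, fun i hi => ?_⟩
  have h1 : |i| ≤ B := hB ⟨i, hi, rfl⟩
  have h2 := abs_le.1 (h1.trans (le_max_left B 0))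
  exact h2

private theorem conv_sum (f h : ℤ → ℝ) (B : ℤ) (hB : ∀ i, h i ≠ 0 → -B ≤ i ∧ i ≤ B)
    (w a b c : ℤ) (ha : a + c ≤ -B) (hb : B ≤ b + c) :
    conv f h w = ∑ I ∈ Finset.Icc a b, f (w - c - I) * h (I + c) := by
  unfold conv
  rw [← finsum_comp_equiv (Equiv.subLeft (w - c))]
  have h1 : ∀ I : ℤ, f ((Equiv.subLeft (w - c)) I) * h (w - (Equiv.subLeft (w - c)) I) =
      f (w - c - I) * h (I + c) := by
    intro I
    rw [Equiv.subLeft_apply]
    congr 2
    ring
  rw [finsum_congr h1]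
  refine finsum_eq_sum_of_support_subset _ ?_
  intro I hI
  have h2 : h (I + c) ≠ 0 := fun h3 => hI (by
    show f (w - c - I) * h (I + c) = 0
    rw [h3, mul_zero])
  obtain ⟨h4, h5⟩ := hB _ h2
  rw [Finset.mem_coe, Finset.mem_Icc]
  constructor <;> omega

theorem cb : GoalCB := by
  intro f g h _ _ hh hlog hfg v
  obtain ⟨B, hB0, hB⟩ := exists_bound h hh
  set K : ℤ := B + 2 with hK
  have e1 : conv f h v = ∑ I ∈ Finset.Icc (-K) K, f (v - I) * h I := by
    rw [conv_sum f h B hB v (-K) K 0 (by omega) (by omega)]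
    simp
  have e2 : conv g h v = ∑ J ∈ Finset.Icc (-K + 1) (K + 1), g (v - J) * h J := by
    rw [conv_sum g h B hB v (-K + 1) (K + 1) 0 (by omega) (by omega)]
    simp
  have e3 : conv f h (v + 1) = ∑ I ∈ Finset.Icc (-K) K, f (v - I) * h (I + 1) := by
    rw [conv_sum f h B hB (v + 1) (-K) K 1 (by omega) (by omega)]
    simp
  have e4 : conv g h (v - 1) = ∑ J ∈ Finset.Icc (-K + 1) (K + 1), g (v - J) * h (J - 1) := by
    rw [conv_sum g h B hB (v - 1) (-K + 1) (K + 1) (-1) (by omega) (by omega)]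
    refine Finset.sum_congr rfl fun J _ => ?_
    rw [show v - 1 - -1 - J = v - J by ring, show J + -1 = J - 1 by ring]
  rw [e1, e2, e3, e4, Finset.sum_mul_sum, Finset.sum_mul_sum, ← Finset.sum_product',
    ← Finset.sum_product', ← sub_nonneg, ← Finset.sum_sub_distrib]
  set S := Finset.Icc (-K) K ×ˢ Finset.Icc (-K + 1) (K + 1) with hS
  set T : ℤ × ℤ → ℝ := fun x => f (v - x.1) * h x.1 * (g (v - x.2) * h x.2) -
    f (v - x.1) * h (x.1 + 1) * (g (v - x.2) * h (x.2 - 1)) with hT
  have key : ∑ x ∈ S, T x = ∑ x ∈ S, T (x.2 - 1, x.1 + 1) := by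
    refine Finset.sum_bij' (fun x _ => (x.2 - 1, x.1 + 1)) (fun x _ => (x.2 - 1, x.1 + 1))
      ?_ ?_ ?_ ?_ ?_
    · intro x hx
      rw [hS, Finset.mem_product, Finset.mem_Icc, Finset.mem_Icc] at hx ⊢
      refine ⟨⟨?_, ?_⟩, ⟨?_, ?_⟩⟩ <;> simp only <;> omega
    · intro x hx
      rw [hS, Finset.mem_product, Finset.mem_Icc, Finset.mem_Icc] at hx ⊢
      refine ⟨⟨?_, ?_⟩, ⟨?_, ?_⟩⟩ <;> simp only <;> omega
    · intro x _
      simp
    · intro x _
      simp
    · intro x _
      simp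
  have pos : ∀ I J : ℤ, J ≤ I → 0 ≤ (h I * h J - h (I + 1) * h (J - 1)) *
      (f (v - I) * g (v - J) - f (v - J + 1) * g (v - I - 1)) := by
    intro I J hIJ
    apply mul_nonneg
    · have := hlog I J hIJ
      linarith
    · have := hfg (v - I) (v - J) (by omega)
      linarith
  have term : ∀ x ∈ S, 0 ≤ T x + T (x.2 - 1, x.1 + 1) := by
    rintro ⟨I, J⟩ _
    have hT2 : T (I, J) + T (J - 1, I + 1) = (h I * h J - h (I + 1) * h (J - 1)) *
        (f (v - I) * g (v - J) - f (v - J + 1) * g (v - I - 1)) := by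
      simp only [hT]
      rw [show v - (J - 1) = v - J + 1 by ring, show v - (I + 1) = v - I - 1 by ring,
        show J - 1 + 1 = J by ring, show I + 1 - 1 = I by ring]
      ring
    simp only
    rw [hT2]
    rcases le_or_gt J I with h1 | h1
    · exact pos I J h1
    · rcases (by omega : J = I + 1 ∨ I + 1 ≤ J - 1) with h2 | h2
      · subst h2
        rw [show I + 1 - 1 = I by ring]
        have : h I * h (I + 1) - h (I + 1) * h I = 0 := by ring
        rw [this, zero_mul]
      · have h3 := pos (J - 1) (I + 1) h2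
        rw [show v - (J - 1) = v - J + 1 by ring, show v - (I + 1) = v - I - 1 by ring,
          show J - 1 + 1 = J by ring, show I + 1 - 1 = I by ring,
          show v - I - 1 + 1 = v - I by ring, show v - J + 1 - 1 = v - J by ring] at h3
        have h4 : (h I * h J - h (I + 1) * h (J - 1)) *
            (f (v - I) * g (v - J) - f (v - J + 1) * g (v - I - 1)) =
          (h (J - 1) * h (I + 1) - h J * h I) *
            (f (v - J + 1) * g (v - I - 1) - f (v - I) * g (v - J)) := by ring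
        rw [h4]
        exact h3
  have h2 := Finset.sum_nonneg term
  rw [Finset.sum_add_distrib, ← key] at h2
  have h3 : 0 ≤ ∑ x ∈ S, T x := by linarith
  exact h3

end Pool.Agent.Helper53.Arb
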